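import Pool.Agent.Lib.MP_d03285_co.Growth

set_option autoImplicit false

namespace Pool.Agent.Lib.MP_d03285_co

/-- Fifteen points of `(ℤ/5)^3`. -/
def pts15 : Fin 15 → Fin 3 → ℕ :=
  ![![1, 3, 3], ![3, 0, 2], ![1, 1, 3], ![2, 1, 0], ![3, 3, 2], ![1, 1, 4], ![3, 1, 3],
    ![0, 3, 0], ![2, 4, 4], ![1, 4, 4], ![4, 3, 0], ![4, 0, 0], ![4, 2, 2], ![0, 0, 4],
    ![4, 2, 3]]

/-- Potential. -/
def g15 : Fin 15 → ℤ := ![0, 0, 1, 1, 1, 2, 2, 3, 3, 4, 8, 9, 23, 61, 183]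

set_option maxRecDepth 100000 in
theorem pos15 : ∀ a b c d : Fin 15,
    (∀ i, (pts15 a i + 3 * pts15 b i) % 5 = (2 * pts15 c i + 2 * pts15 d i) % 5) →
    (a = b ∧ b = c ∧ c = d) ∨ 0 < -3 * g15 a + g15 b + g15 c + g15 d := by
  decide +kernel

/-- The certificate for exponent `log 15 / log 125`. -/
def cert15 : Cert 15 3 5 where
  pts := pts15
  lt := by decide
  fx := fun a => -3 * g15 a
  fy := g15
  fz := g15
  sum_zero := fun a => by ring
  pos := pos15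

end Pool.Agent.Lib.MP_d03285_co
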