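import Mathlib

set_option autoImplicit false

namespace Pool.Agent.Lib.MP_d03285_co

/-- A finite set `A` of natural numbers is admissible if it contains no four pairwise distinct
elements `x, y, z, w` with `x + 3 y = 2 z + 2 w`. -/
def Admissible (A : Finset ℕ) : Prop :=
  ∀ x ∈ A, ∀ y ∈ A, ∀ z ∈ A, ∀ w ∈ A,
    x ≠ y → x ≠ z → x ≠ w → y ≠ z → y ≠ w → z ≠ w → x + 3 * y ≠ 2 * z + 2 * w

open Classical in
/-- `maxAdmissible N` is the maximum of `|A|` over the admissible sets `A ⊆ {1, ..., N}`. -/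
noncomputable def maxAdmissible (N : ℕ) : ℕ :=
  ((Finset.Icc 1 N).powerset.filter Admissible).sup Finset.card

end Pool.Agent.Lib.MP_d03285_co
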