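import Pool.Agent.Lib.MP_d03285_co.Tight

set_option autoImplicit false

namespace Pool.Agent.Lib.MP_d03285_co

open Finset

variable {k r m : ℕ}

lemma card_le_maxAdmissible {N : ℕ} {A : Finset ℕ} (hA : A ⊆ Finset.Icc 1 N)
    (h : Admissible A) : A.card ≤ maxAdmissible N := by
  classical
  unfold maxAdmissible
  apply Finset.le_sup (f := Finset.card)
  simp only [Finset.mem_filter, Finset.mem_powerset]
  exact ⟨hA, h⟩

lemma one_le_maxAdmissible {N : ℕ} (hN : 1 ≤ N) : 1 ≤ maxAdmissible N := by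
  have h : Admissible {1} := by
    intro x hx y hy _ _ _ _ hxy
    rw [Finset.mem_singleton] at hx hy
    exact absurd (hx.trans hy.symm) hxy
  have := card_le_maxAdmissible (N := N) (A := {1})
    (by
      intro a ha
      rw [Finset.mem_singleton] at ha
      rw [Finset.mem_Icc]
      omega) h
  simpa using this

/-- Some class of words is large (pigeonhole). -/
lemma Cert.exists_large_cls (K : Cert k r m) :
    ∃ G : ℕ, ∀ n : ℕ, ∃ C : ℤ × ℤ, k ^ n ≤ (K.cls n C).card * (2 * (n * G) + 1) ^ 2 := by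
  classical
  refine ⟨∑ a, ((K.fx a).natAbs + (K.fy a).natAbs), ?_⟩
  intro n
  set G := ∑ a, ((K.fx a).natAbs + (K.fy a).natAbs) with hG
  have bx : ∀ a, |K.fx a| ≤ (G : ℤ) := by
    intro a
    have h1 : (K.fx a).natAbs + (K.fy a).natAbs ≤ G :=
      Finset.single_le_sum (f := fun a => (K.fx a).natAbs + (K.fy a).natAbs)
        (fun _ _ => Nat.zero_le _) (Finset.mem_univ a)
    have h2 : |K.fx a| = ((K.fx a).natAbs : ℤ) := (Int.natCast_natAbs _).symm
    rw [h2]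
    exact_mod_cast (le_trans (Nat.le_add_right _ _) h1)
  have bys : ∀ a, |K.fy a| ≤ (G : ℤ) := by
    intro a
    have h1 : (K.fx a).natAbs + (K.fy a).natAbs ≤ G :=
      Finset.single_le_sum (f := fun a => (K.fx a).natAbs + (K.fy a).natAbs)
        (fun _ _ => Nat.zero_le _) (Finset.mem_univ a)
    have h2 : |K.fy a| = ((K.fy a).natAbs : ℤ) := (Int.natCast_natAbs _).symm
    rw [h2]
    exact_mod_cast (le_trans (Nat.le_add_left _ _) h1)
  have sumb : ∀ f : Fin k → ℤ, (∀ a, |f a| ≤ (G : ℤ)) → ∀ v : Fin n → Fin k,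
      |∑ j, f (v j)| ≤ (n * G : ℕ) := by
    intro f hf v
    calc |∑ j, f (v j)| ≤ ∑ j, |f (v j)| := Finset.abs_sum_le_sum_abs _ _
      _ ≤ ∑ _j : Fin n, (G : ℤ) := Finset.sum_le_sum fun j _ => hf _
      _ = (n * G : ℕ) := by simp
  set I : Finset ℤ := Finset.Icc (-((n * G : ℕ) : ℤ)) ((n * G : ℕ) : ℤ) with hI
  have hcard : (I ×ˢ I).card = (2 * (n * G) + 1) ^ 2 := by
    rw [Finset.card_product, hI, Int.card_Icc]
    have : (((n * G : ℕ) : ℤ) + 1 - -((n * G : ℕ) : ℤ)).toNat = 2 * (n * G) + 1 := by omega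
    rw [this]; ring
  have hmaps : ∀ v ∈ (Finset.univ : Finset (Fin n → Fin k)),
      (∑ j, K.fx (v j), ∑ j, K.fy (v j)) ∈ I ×ˢ I := by
    intro v _
    rw [Finset.mem_product, hI, Finset.mem_Icc, Finset.mem_Icc]
    exact ⟨abs_le.1 (sumb _ bx v), abs_le.1 (sumb _ bys v)⟩
  by_contra hcon
  push Not at hcon
  have hne : (I ×ˢ I).Nonempty := by
    rw [← Finset.card_pos, hcard]; positivity
  have hsum := Finset.card_eq_sum_card_fiberwise hmaps
  have hlt : ∑ C ∈ I ×ˢ I, (K.cls n C).card * (2 * (n * G) + 1) ^ 2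
      < ∑ _C ∈ I ×ˢ I, k ^ n := Finset.sum_lt_sum_of_nonempty hne fun C _ => hcon C
  rw [Finset.sum_const, hcard, ← Finset.sum_mul, smul_eq_mul] at hlt
  have h3 : ∑ C ∈ I ×ˢ I, (K.cls n C).card = k ^ n := by
    have : (Finset.univ : Finset (Fin n → Fin k)).card = k ^ n := by simp
    rw [← this, hsum]
    rfl
  rw [h3, mul_comm] at hlt
  exact lt_irrefl _ hlt

/-- Exponential growth beats a quadratic polynomial. -/
lemma exists_pow_ge (q : ℝ) (hq : 1 < q) (G : ℕ) :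
    ∃ n : ℕ, 1 ≤ n ∧ ((2 * (n * G) + 1 : ℕ) : ℝ) ^ 2 ≤ q ^ n := by
  have h := tendsto_pow_const_div_const_pow_of_one_lt 2 hq
  have hpos : (0 : ℝ) < 1 / (2 * G + 1) ^ 2 := by positivity
  have h1 := (h.eventually (gt_mem_nhds hpos)).and (Filter.eventually_ge_atTop 1)
  obtain ⟨n, hn, hn1⟩ := h1.exists
  refine ⟨n, hn1, ?_⟩
  have hqn : 0 < q ^ n := by positivity
  rw [div_lt_div_iff₀ hqn (by positivity), one_mul] at hn
  have hn1' : (1 : ℝ) ≤ n := by exact_mod_cast hn1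
  calc ((2 * (n * G) + 1 : ℕ) : ℝ) ^ 2 = (2 * (n * G) + 1) ^ 2 := by push_cast; ring
    _ ≤ ((n : ℝ) * (2 * G + 1)) ^ 2 := by
        apply pow_le_pow_left₀ (by positivity)
        have : (0 : ℝ) ≤ G := by positivity
        nlinarith
    _ = (n : ℝ) ^ 2 * (2 * G + 1) ^ 2 := by ring
    _ ≤ q ^ n := hn.le

/-- Main growth statement for a certificate, nonnegative exponents. -/
theorem Cert.lower_nonneg (K : Cert k r m) (hm : 2 ≤ m) (hr : 1 ≤ r) (γ : ℝ) (hγ0 : 0 ≤ γ)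
    (hγ : ((m : ℝ) ^ r) ^ γ < k) :
    ∃ c : ℝ, 0 < c ∧ ∀ N : ℕ, 1 ≤ N → c * (N : ℝ) ^ γ ≤ maxAdmissible N := by
  obtain ⟨G, hG⟩ := K.exists_large_cls
  have hm0 : (0 : ℝ) < m := by positivity
  have hbase : 0 < ((m : ℝ) ^ r) ^ γ := by positivity
  obtain ⟨n, hn1, hn⟩ := exists_pow_ge ((k : ℝ) / ((m : ℝ) ^ r) ^ γ)
    ((one_lt_div hbase).2 hγ) G
  obtain ⟨C, hC⟩ := hG n
  set a := (K.cls n C).card with ha
  set D := n * r with hD
  -- the class is large
  have hlarge : ((m : ℝ) ^ D) ^ γ ≤ a := by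
    have h1 : ((k : ℝ) ^ n) ≤ a * ((2 * (n * G) + 1 : ℕ) : ℝ) ^ 2 := by exact_mod_cast hC
    have h2 : ((2 * (n * G) + 1 : ℕ) : ℝ) ^ 2 * (((m : ℝ) ^ r) ^ γ) ^ n ≤ (k : ℝ) ^ n := by
      rw [div_pow] at hn
      rwa [le_div_iff₀ (by positivity)] at hn
    have h3 : (((m : ℝ) ^ r) ^ γ) ^ n = ((m : ℝ) ^ D) ^ γ := by
      rw [← Real.rpow_natCast (((m : ℝ) ^ r) ^ γ) n, ← Real.rpow_mul (by positivity),
        mul_comm γ, Real.rpow_mul (by positivity), Real.rpow_natCast, ← pow_mul, hD,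
        mul_comm n r]
    rw [h3] at h2
    have h4 : (0 : ℝ) < ((2 * (n * G) + 1 : ℕ) : ℝ) ^ 2 := by positivity
    have h5 := h2.trans h1
    rw [mul_comm (a : ℝ)] at h5
    exact le_of_mul_le_mul_left h5 h4
  refine ⟨1 / ((((4 : ℝ) * m) ^ D) ^ γ), by positivity, ?_⟩
  intro N hN
  have hNpos : (0 : ℝ) < N := by exact_mod_cast hN
  by_cases hsmall : N < 4 ^ D
  · have h1 : (N : ℝ) ^ γ ≤ (((4 : ℝ) * m) ^ D) ^ γ := by
      apply Real.rpow_le_rpow hNpos.le _ hγ0
      have : (N : ℝ) ≤ 4 ^ D := by exact_mod_cast hsmall.le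
      refine this.trans (pow_le_pow_left₀ (by norm_num) ?_ _)
      have : (2 : ℝ) ≤ m := by exact_mod_cast hm
      linarith
    have h2 : (1 : ℝ) ≤ maxAdmissible N := by exact_mod_cast one_le_maxAdmissible hN
    refine le_trans ?_ h2
    rw [one_div, inv_mul_le_iff₀ (by positivity), mul_one]
    exact h1
  · push Not at hsmall
    set T := Nat.log (m ^ D) (N / 4 ^ D) with hT
    have hq : N / 4 ^ D ≠ 0 := by
      have := Nat.div_pos hsmall (by positivity)
      omega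
    -- the construction fits
    have hfit : (4 * m ^ T) ^ D ≤ N := by
      have h1 : (m ^ D) ^ T ≤ N / 4 ^ D := Nat.pow_log_le_self _ hq
      calc (4 * m ^ T) ^ D = (m ^ D) ^ T * 4 ^ D := by
            rw [mul_pow, ← pow_mul, ← pow_mul, mul_comm T D]; ring
        _ ≤ (N / 4 ^ D) * 4 ^ D := Nat.mul_le_mul_right _ h1
        _ ≤ N := Nat.div_mul_le_self _ _
    obtain ⟨A, hA, hAadm, hAcard⟩ := K.exists_admissible (by omega) n T C
    have hle : a ^ T ≤ maxAdmissible N := by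
      rw [ha, ← hAcard]
      refine card_le_maxAdmissible (hA.trans ?_) hAadm
      exact Finset.Icc_subset_Icc_right hfit
    have hle' : ((a : ℝ)) ^ T ≤ maxAdmissible N := by exact_mod_cast hle
    refine le_trans ?_ hle'
    rw [one_div, inv_mul_le_iff₀ (by positivity)]
    -- upper bound for N
    have hup : (N : ℝ) ≤ ((4 : ℝ) * m) ^ D * ((m : ℝ) ^ D) ^ T := by
      have hD0 : D ≠ 0 := by
        have : 0 < n * r := Nat.mul_pos (by omega) (by omega)
        omega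
      have h1 : N / 4 ^ D < (m ^ D) ^ (T + 1) := by
        apply Nat.lt_pow_succ_log_self
        exact Nat.one_lt_pow hD0 (by omega)
      have h2 : N < 4 ^ D * (m ^ D) ^ (T + 1) := by
        have := (Nat.div_lt_iff_lt_mul (show 0 < 4 ^ D by positivity)).1 h1
        rwa [mul_comm] at this
      have h3 : (N : ℝ) ≤ 4 ^ D * ((m : ℝ) ^ D) ^ (T + 1) := by exact_mod_cast h2.le
      refine h3.trans (le_of_eq ?_)
      rw [mul_pow, pow_succ]; ring
    calc (N : ℝ) ^ γ ≤ (((4 : ℝ) * m) ^ D * ((m : ℝ) ^ D) ^ T) ^ γ :=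
          Real.rpow_le_rpow hNpos.le hup hγ0
      _ = (((4 : ℝ) * m) ^ D) ^ γ * (((m : ℝ) ^ D) ^ γ) ^ T := by
          rw [Real.mul_rpow (by positivity) (by positivity)]
          congr 1
          rw [← Real.rpow_natCast (((m : ℝ) ^ D) ^ γ) T, ← Real.rpow_mul (by positivity),
            mul_comm γ, Real.rpow_mul (by positivity), Real.rpow_natCast]
      _ ≤ (((4 : ℝ) * m) ^ D) ^ γ * (a : ℝ) ^ T := by
          apply mul_le_mul_of_nonneg_left _ (by positivity)
          exact pow_le_pow_left₀ (by positivity) hlarge _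

/-- Growth statement for a certificate: every exponent below `log k / (r log m)` is attained. -/
theorem Cert.lower (K : Cert k r m) (hk : 2 ≤ k) (hm : 2 ≤ m) (hr : 1 ≤ r) (γ : ℝ)
    (hγ : γ < Real.log k / Real.log ((m : ℝ) ^ r)) :
    ∃ c : ℝ, 0 < c ∧ ∀ N : ℕ, 1 ≤ N → c * (N : ℝ) ^ γ ≤ maxAdmissible N := by
  have hm1 : (1 : ℝ) < m := by exact_mod_cast hm
  have hk1 : (1 : ℝ) < k := by exact_mod_cast hk
  have hmr : (1 : ℝ) < (m : ℝ) ^ r := one_lt_pow₀ hm1 (by omega)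
  have hlogm : 0 < Real.log ((m : ℝ) ^ r) := Real.log_pos hmr
  have hlogk : 0 < Real.log k := Real.log_pos hk1
  set δ := max γ 0 with hδ
  have hδ' : δ < Real.log k / Real.log ((m : ℝ) ^ r) := max_lt hγ (div_pos hlogk hlogm)
  have hpow : ((m : ℝ) ^ r) ^ δ < k := by
    rw [lt_div_iff₀ hlogm] at hδ'
    rw [Real.rpow_def_of_pos (by positivity), mul_comm]
    calc Real.exp (δ * Real.log ((m : ℝ) ^ r)) < Real.exp (Real.log k) := Real.exp_lt_exp.2 hδ'
      _ = k := Real.exp_log (by positivity)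
  obtain ⟨c, hc, h⟩ := K.lower_nonneg hm hr δ (le_max_right _ _) hpow
  refine ⟨c, hc, fun N hN => le_trans ?_ (h N hN)⟩
  apply mul_le_mul_of_nonneg_left _ hc.le
  apply Real.rpow_le_rpow_of_exponent_le _ (le_max_left _ _)
  exact_mod_cast hN

end Pool.Agent.Lib.MP_d03285_co
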