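import Pool.Agent.Lib.MP_d03285_co.Defs

set_option autoImplicit false

namespace Pool.Agent.Lib.MP_d03285_co

open Finset

/-- One-dimensional embedding step: base `4 L` expansions of vectors with entries below `L`
reflect the equation. -/
lemma embed_reflect {D L : ℕ} (X Y Z W : Fin D → ℕ) (hX : ∀ s, X s < L) (hY : ∀ s, Y s < L)
    (hZ : ∀ s, Z s < L) (hW : ∀ s, W s < L)
    (h : Behrend.map (4 * L) X + 3 * Behrend.map (4 * L) Y
      = 2 * Behrend.map (4 * L) Z + 2 * Behrend.map (4 * L) W) :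
    ∀ s, X s + 3 * Y s = 2 * Z s + 2 * W s := by
  have h1 : Behrend.map (4 * L) (X + 3 • Y) = Behrend.map (4 * L) (2 • Z + 2 • W) := by
    rw [map_add, map_add, map_nsmul, map_nsmul, map_nsmul]
    simpa [smul_eq_mul] using h
  have hA : (X + 3 • Y) ∈ {x : Fin D → ℕ | ∀ i, x i < 4 * L} := by
    intro s
    have := hX s; have := hY s
    simp only [Pi.add_apply, Pi.smul_apply, smul_eq_mul]
    omega
  have hB : (2 • Z + 2 • W) ∈ {x : Fin D → ℕ | ∀ i, x i < 4 * L} := by
    intro s
    have := hZ s; have := hW s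
    simp only [Pi.add_apply, Pi.smul_apply, smul_eq_mul]
    omega
  have h2 := Behrend.map_injOn hA hB h1
  intro s
  have := congrFun h2 s
  simpa [Pi.add_apply, Pi.smul_apply, smul_eq_mul] using this

lemma map_lt {D M : ℕ} (X : Fin D → ℕ) (hX : ∀ s, X s < M) : Behrend.map M X < M ^ D := by
  induction D with
  | zero => simp [Behrend.map]
  | succ D ih =>
    rw [Behrend.map_succ']
    have h1 := ih (X ∘ Fin.succ) (fun s => hX _)
    have h0 := hX 0
    have hM : 0 < M := lt_of_le_of_lt (Nat.zero_le _) h0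
    calc X 0 + Behrend.map M (X ∘ Fin.succ) * M
        < M + Behrend.map M (X ∘ Fin.succ) * M := by omega
      _ = (Behrend.map M (X ∘ Fin.succ) + 1) * M := by ring
      _ ≤ M ^ D * M := Nat.mul_le_mul_right _ h1
      _ = M ^ (D + 1) := by ring

/-- Digit recursion: if the residues modulo `m` of the labelled points only have constant
solutions, then so do the base `m` expansions. -/
lemma digits_const {α : Type*} {D m : ℕ} (P : α → Fin D → ℕ) (hm : 0 < m) (S : Set α)
    (hP : ∀ x ∈ S, ∀ y ∈ S, ∀ z ∈ S, ∀ w ∈ S,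
      (∀ s, (P x s + 3 * P y s) % m = (2 * P z s + 2 * P w s) % m) → x = y ∧ y = z ∧ z = w)
    (T : ℕ) (X Y Z W : Fin T → α) (hX : ∀ t, X t ∈ S) (hY : ∀ t, Y t ∈ S)
    (hZ : ∀ t, Z t ∈ S) (hW : ∀ t, W t ∈ S)
    (h : ∀ s, Behrend.map m (fun t => P (X t) s) + 3 * Behrend.map m (fun t => P (Y t) s)
      = 2 * Behrend.map m (fun t => P (Z t) s) + 2 * Behrend.map m (fun t => P (W t) s)) :
    X = Y ∧ Y = Z ∧ Z = W := by
  induction T with
  | zero => exact ⟨Subsingleton.elim _ _, Subsingleton.elim _ _, Subsingleton.elim _ _⟩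
  | succ T ih =>
    have key : ∀ s, (P (X 0) s + 3 * P (Y 0) s)
        + m * (Behrend.map m (fun t : Fin T => P (X t.succ) s)
          + 3 * Behrend.map m (fun t : Fin T => P (Y t.succ) s))
        = (2 * P (Z 0) s + 2 * P (W 0) s)
        + m * (2 * Behrend.map m (fun t : Fin T => P (Z t.succ) s)
          + 2 * Behrend.map m (fun t : Fin T => P (W t.succ) s)) := by
      intro s
      have hs := h s
      rw [Behrend.map_succ', Behrend.map_succ', Behrend.map_succ', Behrend.map_succ'] at hs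
      simp only [Function.comp_def] at hs
      linarith [hs]
    have h0 : X 0 = Y 0 ∧ Y 0 = Z 0 ∧ Z 0 = W 0 := by
      apply hP _ (hX 0) _ (hY 0) _ (hZ 0) _ (hW 0)
      intro s
      have hs := congrArg (· % m) (key s)
      simpa [Nat.add_mul_mod_self_left] using hs
    have h1 := ih (fun t => X t.succ) (fun t => Y t.succ) (fun t => Z t.succ)
      (fun t => W t.succ) (fun t => hX _) (fun t => hY _) (fun t => hZ _) (fun t => hW _)
      (by
        intro s
        have hs := key s
        rw [h0.1, h0.2.1, h0.2.2] at hs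
        have e : P (W 0) s + 3 * P (W 0) s = 2 * P (W 0) s + 2 * P (W 0) s := by ring
        rw [e] at hs
        exact Nat.eq_of_mul_eq_mul_left hm (Nat.add_left_cancel hs))
    refine ⟨?_, ?_, ?_⟩
    · ext t
      refine Fin.cases h0.1 (fun t => congrFun h1.1 t) t
    · ext t
      refine Fin.cases h0.2.1 (fun t => congrFun h1.2.1 t) t
    · ext t
      refine Fin.cases h0.2.2 (fun t => congrFun h1.2.2 t) t

/-- A certificate: `k` labelled points of the grid `{0, ..., m-1}^r` with integer potentials such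
that every solution modulo `m` is constant or has positive total potential. -/
structure Cert (k r m : ℕ) where
  pts : Fin k → Fin r → ℕ
  lt : ∀ a i, pts a i < m
  fx : Fin k → ℤ
  fy : Fin k → ℤ
  fz : Fin k → ℤ
  sum_zero : ∀ a, fx a + fy a + 2 * fz a = 0
  pos : ∀ a b c d, (∀ i, (pts a i + 3 * pts b i) % m = (2 * pts c i + 2 * pts d i) % m) →
    (a = b ∧ b = c ∧ c = d) ∨ 0 < fx a + fy b + fz c + fz d

variable {k r m : ℕ}

/-- Coordinates of a word of labels. -/
def Cert.word (K : Cert k r m) {n : ℕ} (v : Fin n → Fin k) (s : Fin (n * r)) : ℕ :=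
  K.pts (v (finProdFinEquiv.symm s).1) (finProdFinEquiv.symm s).2

lemma Cert.word_lt (K : Cert k r m) {n : ℕ} (v : Fin n → Fin k) (s : Fin (n * r)) :
    K.word v s < m := K.lt _ _

/-- Words with prescribed potential sums. -/
def Cert.cls (K : Cert k r m) (n : ℕ) (C : ℤ × ℤ) : Finset (Fin n → Fin k) :=
  Finset.univ.filter fun v => (∑ j, K.fx (v j), ∑ j, K.fy (v j)) = C

lemma Cert.cls_const (K : Cert k r m) {n : ℕ} (C : ℤ × ℤ) :
    ∀ x ∈ (K.cls n C : Set (Fin n → Fin k)), ∀ y ∈ (K.cls n C : Set (Fin n → Fin k)),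
    ∀ z ∈ (K.cls n C : Set (Fin n → Fin k)), ∀ w ∈ (K.cls n C : Set (Fin n → Fin k)),
      (∀ s, (K.word x s + 3 * K.word y s) % m = (2 * K.word z s + 2 * K.word w s) % m) →
        x = y ∧ y = z ∧ z = w := by
  intro x hx y hy z hz w hw h
  simp only [Cert.cls, Finset.coe_filter, Finset.mem_univ, true_and, Set.mem_ofPred_eq,
    Prod.ext_iff] at hx hy hz hw
  have hj : ∀ j : Fin n, ∀ i : Fin r, (K.pts (x j) i + 3 * K.pts (y j) i) % m
      = (2 * K.pts (z j) i + 2 * K.pts (w j) i) % m := by
    intro j i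
    have := h (finProdFinEquiv (j, i))
    simpa [Cert.word] using this
  have h1 : ∀ j, (x j = y j ∧ y j = z j ∧ z j = w j) ∨
      0 < K.fx (x j) + K.fy (y j) + K.fz (z j) + K.fz (w j) := fun j => K.pos _ _ _ _ (hj j)
  have hnn : ∀ j ∈ (Finset.univ : Finset (Fin n)),
      0 ≤ K.fx (x j) + K.fy (y j) + K.fz (z j) + K.fz (w j) := by
    intro j _
    rcases h1 j with ⟨e1, e2, e3⟩ | hp
    · rw [e1, e2, e3]
      have := K.sum_zero (w j)
      linarith
    · exact hp.le
  have hfz : ∀ v : Fin n → Fin k, 2 * ∑ j, K.fz (v j)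
      = - (∑ j, K.fx (v j)) - ∑ j, K.fy (v j) := by
    intro v
    rw [Finset.mul_sum, ← Finset.sum_neg_distrib, ← Finset.sum_sub_distrib]
    apply Finset.sum_congr rfl
    intro j _
    have := K.sum_zero (v j)
    linarith
  have htot : ∑ j, (K.fx (x j) + K.fy (y j) + K.fz (z j) + K.fz (w j)) = 0 := by
    simp only [Finset.sum_add_distrib]
    have e1 := hfz z
    have e2 := hfz w
    have := hx.1; have := hy.2; have := hz.1; have := hz.2; have := hw.1; have := hw.2
    linarith
  have hzero := (Finset.sum_eq_zero_iff_of_nonneg hnn).1 htot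
  have hall : ∀ j, x j = y j ∧ y j = z j ∧ z j = w j := by
    intro j
    rcases h1 j with hc | hp
    · exact hc
    · have := hzero j (Finset.mem_univ _)
      omega
  exact ⟨funext fun j => (hall j).1, funext fun j => (hall j).2.1, funext fun j => (hall j).2.2⟩

/-- The integer attached to a sequence of words. -/
def Cert.num (K : Cert k r m) (n T : ℕ) (u : Fin T → Fin n → Fin k) : ℕ :=
  Behrend.map (4 * m ^ T) (fun s => Behrend.map m (fun t => K.word (u t) s)) + 1

lemma Cert.num_const (K : Cert k r m) (hm : 0 < m) {n T : ℕ} (C : ℤ × ℤ)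
    (x y z w : Fin T → Fin n → Fin k) (hx : ∀ t, x t ∈ K.cls n C) (hy : ∀ t, y t ∈ K.cls n C)
    (hz : ∀ t, z t ∈ K.cls n C) (hw : ∀ t, w t ∈ K.cls n C)
    (h : K.num n T x + 3 * K.num n T y = 2 * K.num n T z + 2 * K.num n T w) :
    x = y ∧ y = z ∧ z = w := by
  refine digits_const (fun v s => K.word v s) hm (K.cls n C : Set _) (K.cls_const C) T x y z w
    (fun t => Finset.mem_coe.2 (hx t)) (fun t => Finset.mem_coe.2 (hy t))
    (fun t => Finset.mem_coe.2 (hz t)) (fun t => Finset.mem_coe.2 (hw t)) ?_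
  apply embed_reflect (L := m ^ T)
  · exact fun s => map_lt _ fun t => K.word_lt _ _
  · exact fun s => map_lt _ fun t => K.word_lt _ _
  · exact fun s => map_lt _ fun t => K.word_lt _ _
  · exact fun s => map_lt _ fun t => K.word_lt _ _
  · unfold Cert.num at h
    omega

/-- The resulting admissible set. -/
lemma Cert.exists_admissible (K : Cert k r m) (hm : 0 < m) (n T : ℕ) (C : ℤ × ℤ) :
    ∃ A : Finset ℕ, A ⊆ Finset.Icc 1 ((4 * m ^ T) ^ (n * r)) ∧ Admissible A ∧
      A.card = (K.cls n C).card ^ T := by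
  classical
  refine ⟨(Fintype.piFinset fun _ : Fin T => K.cls n C).image (K.num n T), ?_, ?_, ?_⟩
  · intro a ha
    rw [Finset.mem_image] at ha
    obtain ⟨u, hu, rfl⟩ := ha
    rw [Finset.mem_Icc]
    refine ⟨by unfold Cert.num; omega, ?_⟩
    unfold Cert.num
    apply Nat.succ_le_of_lt
    apply map_lt
    intro s
    have := map_lt (M := m) (fun t => K.word (u t) s) fun t => K.word_lt _ _
    omega
  · intro x hx y hy z hz w hw hxy _ _ _ _ _ h
    rw [Finset.mem_image] at hx hy hz hw
    obtain ⟨x', hx', rfl⟩ := hx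
    obtain ⟨y', hy', rfl⟩ := hy
    obtain ⟨z', hz', rfl⟩ := hz
    obtain ⟨w', hw', rfl⟩ := hw
    rw [Fintype.mem_piFinset] at hx' hy' hz' hw'
    have := K.num_const hm C x' y' z' w' hx' hy' hz' hw' h
    exact hxy (by rw [this.1])
  · rw [Finset.card_image_of_injOn, Fintype.card_piFinset]
    · simp
    · intro x hx y hy h
      rw [Finset.mem_coe, Fintype.mem_piFinset] at hx hy
      have := K.num_const hm C x y x y hx hy hx hy (by rw [h]; ring)
      exact this.1

end Pool.Agent.Lib.MP_d03285_co
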